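import Pool.Agent.Y284.EW.Lip
import Pool.Agent.Y284.EW.Gau

/-!
# Empirical Wasserstein rates for `p > d`: uniform bounds for all Gaussian measures of rank `d` and
# for all measures that are Lipschitz equivalent to the standard Gaussian measure of `ℝ^d`

For `d ≥ 2` and `p > d` the order of `E W_p^p(ν_n, ν)` is `(log n)^(d - 1 - p/2) / n` for the
standard Gaussian measure `γ_d` of `ℝ^d`, with constants `c, C, n₀` (depending only on `d` and `p`)
which serve at the same time:

* for all measures `ν` in all spaces `ℝ^m` such that `ν` is the image of `γ_d` under a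
  `K`-Lipschitz map and `γ_d` the image of `ν` under a `K'`-Lipschitz map (not necessarily inverse
  to each other), with the factors `K'^(-p)` below and `K^p` above;
* for all Gaussian measures `N(b, S)` in all spaces `ℝ^m` whose covariance matrix `S` has rank
  `d` (singular or not): if the nonzero eigenvalues of `S` lie in `[a, A]`, with the factors
  `a^(p/2)` below and `A^(p/2)` above.
-/

set_option autoImplicit false
open MeasureTheory Filter Topology Set
open scoped ENNReal NNReal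
open Pool.Agent.Helper764.EW Pool.Agent.Y284.EWL ProbabilityTheory

namespace Pool.Agent.Results.MP_31d543_pr.LipschitzImages

/-- The rate `(log n)^(d - 1 - p/2) / n`. -/
noncomputable def rate (d : ℕ) (p : ℝ) (n : ℕ) : ℝ :=
  (Real.log n) ^ ((d : ℝ) - 1 - p / 2) / n

theorem rate_nonneg (d : ℕ) (p : ℝ) (n : ℕ) : 0 ≤ rate d p n := by
  unfold rate
  have : 0 ≤ Real.log n := Real.log_natCast_nonneg n
  positivity

theorem base (d : ℕ) (hd : 2 ≤ d) (p : ℝ) (hp : (d : ℝ) < p) :
    ∃ c C : ℝ, 0 < c ∧ 0 < C ∧ ∃ n₀ : ℕ, ∀ n : ℕ, n₀ ≤ n →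
      ENNReal.ofReal (c * rate d p n) ≤ expCost p (gauss d) n ∧
      expCost p (gauss d) n ≤ ENNReal.ofReal (C * rate d p n) := by
  obtain ⟨m, rfl⟩ : ∃ m, d = m + 1 := ⟨d - 1, by omega⟩
  have hm : 1 ≤ m := by omega
  have hm1 : (1 : ℝ) ≤ m := by exact_mod_cast hm
  have h2 : 2 < p := by push_cast at hp; linarith
  have h1 : 1 ≤ p := by linarith
  obtain ⟨c, hc, hlow⟩ := lower_bound m p (by linarith)
  obtain ⟨C, hC, hup⟩ := upper_G m hm p hp
  refine ⟨c, C, hc, hC, eventually_atTop.1 ?_⟩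
  filter_upwards [hlow, hup, eventually_ge_atTop 1] with n hl hu hn
  have hn0 : (0 : ℝ) < n := by exact_mod_cast hn
  have hr : ((m + 1 : ℕ) : ℝ) - 1 - p / 2 = (m : ℝ) - p / 2 := by push_cast; ring
  constructor
  · rw [rate, hr, ← mul_div_assoc]
    exact hl
  · have hne : (n : ℝ≥0∞) ≠ 0 := by simpa using (by omega : n ≠ 0)
    have hnt : (n : ℝ≥0∞) ≠ ⊤ := ENNReal.natCast_ne_top n
    rw [rate, hr, ← mul_div_assoc, ENNReal.ofReal_div_of_pos hn0, ENNReal.ofReal_natCast,
      ENNReal.le_div_iff_mul_le (Or.inl hne) (Or.inl hnt), mul_comm]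
    exact hu

/-- **Main theorem.** -/
theorem main (d : ℕ) (hd : 2 ≤ d) (p : ℝ) (hp : (d : ℝ) < p) :
    ∃ c C : ℝ, 0 < c ∧ 0 < C ∧ ∃ n₀ : ℕ, ∀ n : ℕ, n₀ ≤ n →
      (∀ (m : ℕ) (T : E d → E m) (K : ℝ), 0 < K → Lip K T →
        expCost p ((gauss d).map T) n ≤ ENNReal.ofReal (K ^ p * (C * rate d p n))) ∧
      (∀ (m : ℕ) (ν : Measure (E m)) (S : E m → E d) (K : ℝ), 0 < K → Lip K S →
        ν.map S = gauss d → ENNReal.ofReal (K ^ (-p) * (c * rate d p n)) ≤ expCost p ν n) ∧
      (∀ (m : ℕ) (T : E d → E m) (K : ℝ), 0 < K → (∀ x y, ‖x - y‖ ≤ K * ‖T x - T y‖) →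
        Measurable T →
        ENNReal.ofReal (K ^ (-p) * (c * rate d p n)) ≤ expCost p ((gauss d).map T) n) := by
  obtain ⟨c, C, hc, hC, n₀, h0⟩ := base d hd p hp
  have hd2 : (2 : ℝ) ≤ d := by exact_mod_cast hd
  have hp1 : 1 ≤ p := by linarith
  have hγ := gauss_prob d
  set L : ℝ := max 1 (lipschitzExtensionConstant (E d) : ℝ) with hL
  have hL1 : 1 ≤ L := le_max_left _ _
  have hL0 : 0 < L := by linarith
  -- the lower bound with the constant of the standard Gaussian
  have key : ∀ n, n₀ ≤ n → ∀ (m : ℕ) (ν : Measure (E m)) (S : E m → E d) (K : ℝ), 0 < K →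
      Lip K S → ν.map S = gauss d →
      ENNReal.ofReal (K ^ (-p) * (c * rate d p n)) ≤ expCost p ν n := by
    intro n hn m ν S K hK hS hν
    have hSm := hS.measurable hK.le
    have hprob : IsProbabilityMeasure ν := by
      constructor
      have h1 : (ν.map S) univ = 1 := by rw [hν]; exact measure_univ
      rwa [Measure.map_apply hSm MeasurableSet.univ, preimage_univ] at h1
    have h1 := expCost_map_le hK hp1 hS ν n
    rw [hν] at h1
    have h2 := (h0 n hn).1.trans h1
    have hKp : 0 < K ^ p := Real.rpow_pos_of_pos hK p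
    have e1 : K ^ (-p) * (c * rate d p n) = (c * rate d p n) / K ^ p := by
      rw [Real.rpow_neg hK.le]; field_simp
    rw [e1, ENNReal.ofReal_div_of_pos hKp]
    exact ENNReal.div_le_of_le_mul (h2.trans_eq (mul_comm _ _))
  refine ⟨c * L ^ (-p), C, mul_pos hc (Real.rpow_pos_of_pos hL0 _), hC, n₀, fun n hn =>
    ⟨?_, ?_, ?_⟩⟩
  · intro m T K hK hT
    have h1 := expCost_map_le hK hp1 hT (gauss d) n
    refine h1.trans ?_
    rw [ENNReal.ofReal_mul (Real.rpow_nonneg hK.le p)]
    gcongr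
    exact (h0 n hn).2
  · intro m ν S K hK hS hν
    refine le_trans (ENNReal.ofReal_le_ofReal ?_) (key n hn m ν S K hK hS hν)
    have h1 : L ^ (-p) ≤ 1 := Real.rpow_le_one_of_one_le_of_nonpos hL1 (by linarith)
    have h2 := rate_nonneg d p n
    have h3 : 0 ≤ K ^ (-p) := Real.rpow_nonneg hK.le _
    have h4 : c * L ^ (-p) ≤ c := by nlinarith
    gcongr
  · intro m T K hK hT hTm
    obtain ⟨S, hS, hST⟩ := exists_left hK hT
    have hS' : Lip (L * K) S := fun x y => (hS x y).trans (by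
      have : (lipschitzExtensionConstant (E d) : ℝ) ≤ L := le_max_right _ _
      gcongr)
    have hSm := hS'.measurable (by positivity)
    have h1 : ((gauss d).map T).map S = gauss d := by
      rw [Measure.map_map hSm hTm]
      have : S ∘ T = id := funext hST
      rw [this, Measure.map_id]
    have h2 := key n hn m _ S (L * K) (by positivity) hS' h1
    have e1 : (L * K) ^ (-p) * (c * rate d p n) = K ^ (-p) * (c * L ^ (-p) * rate d p n) := by
      rw [Real.mul_rpow hL0.le hK.le]; ring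
    rwa [e1] at h2

/-- **Result.** `E W_p^p(ν_n, ν)` for `p > d ≥ 2`: the order `(log n)^(d - 1 - p/2) / n`, with uniform
constants, for the standard Gaussian measure of `ℝ^d`, for all measures Lipschitz equivalent to it,
and for all Gaussian measures with covariance matrix of rank `d`. -/
theorem result (d : ℕ) (hd : 2 ≤ d) (p : ℝ) (hp : (d : ℝ) < p) :
    (∀ (m n : ℕ) (ν : Measure (E m)), Measurable fun x : Fin n → E m => Wpp p (emp x) ν) ∧
    ∃ c C : ℝ, 0 < c ∧ 0 < C ∧ ∃ n₀ : ℕ, ∀ n : ℕ, n₀ ≤ n →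
      -- the standard Gaussian measure
      (ENNReal.ofReal (c * rate d p n) ≤ expCost p (stdGaussian (E d)) n ∧
        expCost p (stdGaussian (E d)) n ≤ ENNReal.ofReal (C * rate d p n)) ∧
      -- the measures Lipschitz equivalent to it
      (∀ (m : ℕ) (ν : Measure (E m)) (T : E d → E m) (S : E m → E d) (K K' : ℝ),
        0 < K → 0 < K' → (∀ x y, ‖T x - T y‖ ≤ K * ‖x - y‖) →
        (∀ x y, ‖S x - S y‖ ≤ K' * ‖x - y‖) →
        (stdGaussian (E d)).map T = ν → ν.map S = stdGaussian (E d) →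
        ENNReal.ofReal (K' ^ (-p) * (c * rate d p n)) ≤ expCost p ν n ∧
        expCost p ν n ≤ ENNReal.ofReal (K ^ p * (C * rate d p n))) ∧
      -- the Gaussian measures with covariance matrix of rank `d`
      (∀ (m : ℕ) (b : E m) (S : Matrix (Fin m) (Fin m) ℝ) (hS : S.PosSemidef), S.rank = d →
        ∀ a A : ℝ, 0 < a → 0 < A →
        (∀ i, hS.1.eigenvalues i ≠ 0 → a ≤ hS.1.eigenvalues i ∧ hS.1.eigenvalues i ≤ A) →
        ENNReal.ofReal (a ^ (p / 2) * (c * rate d p n)) ≤ expCost p (multivariateGaussian b S) n ∧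
        expCost p (multivariateGaussian b S) n ≤
          ENNReal.ofReal (A ^ (p / 2) * (C * rate d p n))) := by
  have hd2 : (2 : ℝ) ≤ d := by exact_mod_cast hd
  refine ⟨fun m n ν => measurable_Wpp_emp (by linarith) ν, ?_⟩
  obtain ⟨c, C, hc, hC, n₀, h⟩ := main d hd p hp
  rw [gauss_std] at h
  refine ⟨c, C, hc, hC, n₀, fun n hn => ?_⟩
  obtain ⟨h1, h2, h3⟩ := h n hn
  refine ⟨⟨?_, ?_⟩, ?_, ?_⟩
  · have := h2 d (stdGaussian (E d)) id 1 one_pos (fun x y => by simp) Measure.map_id
    rwa [Real.one_rpow, one_mul] at this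
  · have := h1 d id 1 one_pos (fun x y => by simp)
    rwa [Real.one_rpow, one_mul, Measure.map_id] at this
  · intro m ν T S K K' hK hK' hT hS hTν hSν
    exact ⟨h2 m ν S K' hK' hS hSν, hTν ▸ h1 m T K hK hT⟩
  · intro m b S hS hrank a A ha hA hev
    obtain ⟨B, hlow, hup, hB⟩ := exists_affine b S hS hrank
    rw [hB]
    have hev1 : ∀ x, a * ‖x‖ ^ 2 ≤ ‖B x‖ ^ 2 := hlow a fun i hi => (hev i hi).1
    have hev2 : ∀ x, ‖B x‖ ^ 2 ≤ A * ‖x‖ ^ 2 := hup A fun i => by
      by_cases hi : hS.1.eigenvalues i = 0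
      · rw [hi]; exact hA.le
      · exact (hev i hi).2
    have hmeas : Measurable fun x => B x + b := by fun_prop
    have hsub : ∀ x y, (B x + b) - (B y + b) = B (x - y) := fun x y => by
      rw [map_sub]; abel
    have e1 : ∀ t : ℝ, 0 < t → (Real.sqrt t) ^ p = t ^ (p / 2) := fun t ht => by
      rw [Real.sqrt_eq_rpow, ← Real.rpow_mul ht.le]
      congr 1; ring
    constructor
    · have hsa : 0 < Real.sqrt a := Real.sqrt_pos.2 ha
      have := h3 m (fun x => B x + b) (Real.sqrt a)⁻¹ (inv_pos.2 hsa) (fun x y => by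
        rw [hsub, inv_mul_eq_div, le_div_iff₀ hsa]
        refine le_of_sq_le_sq ?_ (norm_nonneg _)
        rw [mul_pow, Real.sq_sqrt ha.le, mul_comm]
        exact hev1 _) hmeas
      rwa [Real.inv_rpow hsa.le, Real.rpow_neg hsa.le, inv_inv, e1 a ha] at this
    · have hsA : 0 < Real.sqrt A := Real.sqrt_pos.2 hA
      have := h1 m (fun x => B x + b) (Real.sqrt A) hsA (fun x y => by
        rw [hsub]
        refine le_of_sq_le_sq ?_ (by positivity)
        rw [mul_pow, Real.sq_sqrt hA.le]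
        exact hev2 _)
      rwa [e1 A hA] at this

end Pool.Agent.Results.MP_31d543_pr.LipschitzImages
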